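import Pool.Agent.V5helper49.IR.Stm

/-!
# Project IR, job SCL: one scale
-/

set_option autoImplicit false

namespace Pool.Agent.V5helper96.IR

open Finset MeasureTheory ProbabilityTheory Filter Topology
open Pool.Agent.V5helper49.IR

theorem EB_mono (p : ℕ → ℝ) (hp : ∀ k, 0 ≤ p k ∧ p k ≤ 1) (M : ℕ) (F G : Finset ℕ → ℝ)
    (h : ∀ B, F B ≤ G B) : EB p M F ≤ EB p M G := by
  induction M generalizing F G with
  | zero => exact h _
  | succ M ih =>
    have h1 := ih (fun B => F (insert M B)) (fun B => G (insert M B)) (fun B => h _)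
    have h2 := ih F G h
    have h3 := (hp M).1
    have h4 : 0 ≤ 1 - p M := by linarith [(hp M).2]
    exact add_le_add (mul_le_mul_of_nonneg_left h1 h3) (mul_le_mul_of_nonneg_left h2 h4)

theorem qq_nonneg (p : ℕ → ℝ) (hp : ∀ k, 0 ≤ p k) (n k : ℕ) : 0 ≤ qq p n k := by
  unfold qq
  split_ifs
  · exact hp _
  · exact le_rfl

theorem sum_qq (p : ℕ → ℝ) (hp : ∀ k, 0 ≤ p k) (M k : ℕ) :
    ∑ n ∈ range M, qq p n k ≤ ∑ j ∈ range M, p j := by
  unfold qq
  rw [← sum_filter]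
  rw [← sum_image (f := p) (g := fun n => n - k) (s := (range M).filter (fun n => k ≤ n))]
  · apply sum_le_sum_of_subset_of_nonneg
    · intro j hj
      rw [mem_image] at hj
      obtain ⟨n, hn, rfl⟩ := hj
      rw [mem_filter, mem_range] at hn
      rw [mem_range]
      omega
    · intro j _ _
      exact hp j
  · intro a ha b hb hab
    simp only [coe_filter, mem_range, Set.mem_setOf_eq] at ha hb
    simp only at hab
    omega

theorem sum_half (p : ℕ → ℝ) (hp : ∀ k, 0 ≤ p k) (M : ℕ) :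
    ∑ n ∈ range M, p (n / 2) ≤ 2 * ∑ j ∈ range M, p j := by
  have h1 : ∑ v ∈ range M, ∑ n ∈ range M with n / 2 = v, p (n / 2) = ∑ n ∈ range M, p (n / 2) :=
    sum_fiberwise_of_maps_to (fun n hn => by rw [mem_range] at hn ⊢; omega) _
  rw [← h1, mul_sum]
  refine sum_le_sum fun v _ => ?_
  have h2 : ∑ n ∈ range M with n / 2 = v, p (n / 2) = ∑ n ∈ range M with n / 2 = v, p v :=
    sum_congr rfl fun n hn => by rw [(mem_filter.mp hn).2]
  rw [h2, sum_const, nsmul_eq_mul]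
  refine mul_le_mul_of_nonneg_right ?_ (hp v)
  have h3 : ((range M).filter (fun n => n / 2 = v)) ⊆ {2 * v, 2 * v + 1} := by
    intro n hn
    rw [mem_filter] at hn
    simp only [mem_insert, mem_singleton]
    omega
  have h4 := (card_le_card h3).trans card_le_two
  exact_mod_cast h4

theorem sum_lam (p : ℕ → ℝ) (hp : ∀ k, 0 ≤ p k) (M : ℕ) :
    ∑ n ∈ range M, lam p n ≤ (∑ j ∈ range M, p j) ^ 2 + 2 * ∑ j ∈ range M, p j := by
  unfold lam
  rw [sum_add_distrib]
  refine add_le_add ?_ (sum_half p hp M)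
  have h1 : ∀ n ∈ range M, ∑ k ∈ range (n + 1), p k * p (n - k) ≤
      ∑ k ∈ range M, p k * qq p n k := by
    intro n hn
    rw [mem_range] at hn
    have h2 : ∑ k ∈ range (n + 1), p k * p (n - k) = ∑ k ∈ range (n + 1), p k * qq p n k := by
      refine sum_congr rfl fun k hk => ?_
      rw [mem_range] at hk
      rw [qq, if_pos (by omega)]
    rw [h2]
    refine sum_le_sum_of_subset_of_nonneg (range_subset_range.mpr (by omega)) ?_
    intro k _ _
    exact mul_nonneg (hp k) (qq_nonneg p hp n k)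
  refine (sum_le_sum h1).trans ?_
  rw [sum_comm, sq, sum_mul]
  refine sum_le_sum fun k _ => ?_
  rw [← mul_sum]
  exact mul_le_mul_of_nonneg_left (sum_qq p hp M k) (hp k)

theorem sum_cv (p : ℕ → ℝ) (hp : ∀ k, 0 ≤ p k) (M : ℕ) :
    ∑ n ∈ range M, ∑ m ∈ range M, cv p M n m ≤
      (∑ j ∈ range M, p j) ^ 3 + 4 * (∑ j ∈ range M, p j) ^ 2 := by
  set S := ∑ j ∈ range M, p j with hS
  have hS0 : 0 ≤ S := sum_nonneg fun j _ => hp j
  unfold cv
  have h1 : ∑ n ∈ range M, ∑ m ∈ range M, ∑ k ∈ range M, p k * qq p n k * qq p m k ≤ S ^ 3 := by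
    have h2 : ∀ n ∈ range M, ∑ m ∈ range M, ∑ k ∈ range M, p k * qq p n k * qq p m k ≤
        ∑ k ∈ range M, p k * qq p n k * S := by
      intro n _
      rw [sum_comm]
      refine sum_le_sum fun k _ => ?_
      rw [← mul_sum]
      exact mul_le_mul_of_nonneg_left (sum_qq p hp M k) (mul_nonneg (hp k) (qq_nonneg p hp n k))
    refine (sum_le_sum h2).trans ?_
    rw [sum_comm]
    have h3 : ∀ k ∈ range M, ∑ n ∈ range M, p k * qq p n k * S ≤ p k * S * S := by
      intro k _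
      have e : ∀ n, p k * qq p n k * S = (p k * S) * qq p n k := fun n => by ring
      rw [sum_congr rfl fun n _ => e n, ← mul_sum]
      exact mul_le_mul_of_nonneg_left (sum_qq p hp M k) (mul_nonneg (hp k) hS0)
    refine (sum_le_sum h3).trans ?_
    rw [← sum_mul, ← sum_mul, ← hS]
    exact le_of_eq (by ring)
  have h4 : ∑ n ∈ range M, ∑ m ∈ range M, p (n / 2) * qq p m (n / 2) ≤ 2 * S ^ 2 := by
    have h5 : ∀ n ∈ range M, ∑ m ∈ range M, p (n / 2) * qq p m (n / 2) ≤ p (n / 2) * S := by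
      intro n _
      rw [← mul_sum]
      exact mul_le_mul_of_nonneg_left (sum_qq p hp M _) (hp _)
    refine (sum_le_sum h5).trans ?_
    rw [← sum_mul]
    have := mul_le_mul_of_nonneg_right (sum_half p hp M) hS0
    rw [← hS] at this
    refine this.trans (le_of_eq (by ring))
  have h6 : ∑ n ∈ range M, ∑ m ∈ range M, p (m / 2) * qq p n (m / 2) ≤ 2 * S ^ 2 := by
    rw [sum_comm]
    exact h4
  simp only [sum_add_distrib]
  linarith

theorem cv_nonneg (p : ℕ → ℝ) (hp : ∀ k, 0 ≤ p k) (M n m : ℕ) : 0 ≤ cv p M n m := by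
  unfold cv
  refine add_nonneg (sum_nonneg fun k _ => ?_) (add_nonneg ?_ ?_)
  · exact mul_nonneg (mul_nonneg (hp k) (qq_nonneg p hp _ _)) (qq_nonneg p hp _ _)
  · exact mul_nonneg (hp _) (qq_nonneg p hp _ _)
  · exact mul_nonneg (hp _) (qq_nonneg p hp _ _)

theorem sum_cv_sub (p : ℕ → ℝ) (hp : ∀ k, 0 ≤ p k) (M : ℕ) (L : Finset ℕ) (hL : L ⊆ range M) :
    ∑ n ∈ L, ∑ m ∈ L, cv p M n m ≤
      (∑ j ∈ range M, p j) ^ 3 + 4 * (∑ j ∈ range M, p j) ^ 2 := by
  refine le_trans ?_ (sum_cv p hp M)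
  refine (sum_le_sum fun n _ => sum_le_sum_of_subset_of_nonneg hL
    fun m _ _ => cv_nonneg p hp M n m).trans ?_
  exact sum_le_sum_of_subset_of_nonneg hL fun n _ _ => sum_nonneg fun m _ => cv_nonneg p hp M n m

/-- the final estimate -/
theorem final_bound {x η κ m V : ℝ} (hx : 1 < x) (hη : 0 < η) (hκ : 0 < κ)
    (hm : m = η / 4 * x * x ^ (-(κ / 2))) (hV : V ≤ 5 * (x ^ (1 / 2 + κ / 4)) ^ 3)
    (h1 : 32 / η * x ^ (-(3 / 4 - κ / 2)) ≤ 1)
    (h2 : 640 / η ^ 2 * x ^ (-(1 / 4 - 7 * κ / 4)) ≤ 1) :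
    4 * (1 / m + V / m ^ 2) ≤ x ^ (-(1 / 4) : ℝ) := by
  have hx0 : 0 < x := by linarith
  have e1 : m = η / 4 * x ^ (1 - κ / 2) := by
    rw [hm, mul_assoc]
    congr 1
    nth_rewrite 1 [← Real.rpow_one x]
    rw [← Real.rpow_add hx0]
    congr 1
  have hm0 : 0 < m := by rw [e1]; positivity
  have e2 : 1 / m = 4 / η * x ^ (-(1 - κ / 2)) := by
    rw [e1, Real.rpow_neg hx0.le]
    field_simp
  have e3 : m ^ 2 = η ^ 2 / 16 * x ^ (2 - κ) := by
    rw [e1, mul_pow, ← Real.rpow_natCast (x ^ (1 - κ / 2)) 2, ← Real.rpow_mul hx0.le]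
    have : (1 - κ / 2) * ((2 : ℕ) : ℝ) = 2 - κ := by push_cast; ring
    rw [this]
    ring
  have e4 : (x ^ (1 / 2 + κ / 4)) ^ 3 = x ^ (3 / 2 + 3 * κ / 4) := by
    rw [← Real.rpow_natCast (x ^ (1 / 2 + κ / 4)) 3, ← Real.rpow_mul hx0.le]
    congr 1
    push_cast
    ring
  have e5 : V / m ^ 2 ≤ 80 / η ^ 2 * x ^ (-(1 / 2 - 7 * κ / 4)) := by
    rw [div_le_iff₀ (by positivity), e3]
    refine hV.trans (le_of_eq ?_)
    rw [e4]
    have : x ^ (3 / 2 + 3 * κ / 4) = x ^ (-(1 / 2 - 7 * κ / 4)) * x ^ (2 - κ) := by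
      rw [← Real.rpow_add hx0]
      congr 1
      ring
    rw [this]
    field_simp
    ring
  have e6 : x ^ (-(1 - κ / 2)) = x ^ (-(3 / 4 - κ / 2)) * x ^ (-(1 / 4) : ℝ) := by
    rw [← Real.rpow_add hx0]
    congr 1
    ring
  have e7 : x ^ (-(1 / 2 - 7 * κ / 4)) = x ^ (-(1 / 4 - 7 * κ / 4)) * x ^ (-(1 / 4) : ℝ) := by
    rw [← Real.rpow_add hx0]
    congr 1
    ring
  have hq : 0 < x ^ (-(1 / 4) : ℝ) := by positivity
  have f1 : 4 * (1 / m) ≤ 1 / 2 * x ^ (-(1 / 4) : ℝ) := by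
    rw [e2, e6]
    have := mul_le_mul_of_nonneg_right h1 hq.le
    have e8 : 4 * (4 / η * (x ^ (-(3 / 4 - κ / 2)) * x ^ (-(1 / 4) : ℝ))) =
        1 / 2 * (32 / η * x ^ (-(3 / 4 - κ / 2)) * x ^ (-(1 / 4) : ℝ)) := by ring
    rw [e8]
    linarith
  have f2 : 4 * (V / m ^ 2) ≤ 1 / 2 * x ^ (-(1 / 4) : ℝ) := by
    refine (mul_le_mul_of_nonneg_left e5 (by norm_num)).trans ?_
    rw [e7]
    have := mul_le_mul_of_nonneg_right h2 hq.le
    have e8 : 4 * (80 / η ^ 2 * (x ^ (-(1 / 4 - 7 * κ / 4)) * x ^ (-(1 / 4) : ℝ))) =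
        1 / 2 * (640 / η ^ 2 * x ^ (-(1 / 4 - 7 * κ / 4)) * x ^ (-(1 / 4) : ℝ)) := by ring
    rw [e8]
    linarith
  linarith

open Classical in
theorem t_SCL (hONE : S_ONE) (hCHE : S_CHE) : S_SCL := by
  intro δ η κ hδ hη hκ hκ1
  set c : ℝ := min 1 (Real.sqrt (δ * κ * η / 64)) with hc
  have hc0 : 0 < c := lt_min one_pos (Real.sqrt_pos.mpr (by positivity))
  have hc1 : c ≤ 1 := min_le_left _ _
  have hc2 : c ^ 2 ≤ δ * κ * η / 64 := by
    have h1 : c ≤ Real.sqrt (δ * κ * η / 64) := min_le_right _ _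
    calc c ^ 2 ≤ (Real.sqrt (δ * κ * η / 64)) ^ 2 := pow_le_pow_left₀ hc0.le h1 2
      _ = _ := Real.sq_sqrt (by positivity)
  have hT : Tendsto (fun N : ℕ => (N : ℝ)) atTop atTop := tendsto_natCast_atTop_atTop
  have hxl : Tendsto (fun x : ℝ => Real.sqrt (x * Real.log x)) atTop atTop :=
    Real.tendsto_sqrt_atTop.comp (tendsto_id.atTop_mul_atTop₀ Real.tendsto_log_atTop)
  have e1 : ∀ᶠ x : ℝ in atTop, 128 / (7 * (δ * κ * η)) ≤ Real.sqrt (x * Real.log x) :=
    hxl.eventually_ge_atTop _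
  have e2 : ∀ᶠ x : ℝ in atTop, 4 / η ≤ x := eventually_ge_atTop _
  have e3 : ∀ᶠ x : ℝ in atTop, Real.log x ≤ x ^ (κ / 2) := by
    have := (isLittleO_log_rpow_atTop (by positivity : 0 < κ / 2)).bound (c := 1) one_pos
    filter_upwards [this, eventually_ge_atTop 1] with x hx hx1
    rw [one_mul, Real.norm_of_nonneg (Real.log_nonneg hx1),
      Real.norm_of_nonneg (by positivity)] at hx
    exact hx
  have e4 : ∀ᶠ x : ℝ in atTop, 32 / η * x ^ (-(3 / 4 - κ / 2)) ≤ 1 := by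
    have h1 : Tendsto (fun x : ℝ => 32 / η * x ^ (-(3 / 4 - κ / 2))) atTop (𝓝 (32 / η * 0)) :=
      (tendsto_rpow_neg_atTop (by linarith)).const_mul _
    rw [mul_zero] at h1
    exact h1.eventually_le_const one_pos
  have e5 : ∀ᶠ x : ℝ in atTop, 640 / η ^ 2 * x ^ (-(1 / 4 - 7 * κ / 4)) ≤ 1 := by
    have h1 : Tendsto (fun x : ℝ => 640 / η ^ 2 * x ^ (-(1 / 4 - 7 * κ / 4))) atTop
        (𝓝 (640 / η ^ 2 * 0)) :=
      (tendsto_rpow_neg_atTop (by linarith)).const_mul _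
    rw [mul_zero] at h1
    exact h1.eventually_le_const one_pos
  have e6 : ∀ᶠ x : ℝ in atTop, 8 / η ≤ x ^ (κ / 2) :=
    (tendsto_rpow_atTop (by positivity)).eventually_ge_atTop _
  have e7 : ∀ᶠ x : ℝ in atTop, 1 < x := eventually_gt_atTop _
  obtain ⟨N₀, hN₀⟩ := eventually_atTop.mp (hT.eventually
    (e1.and (e2.and (e3.and (e4.and (e5.and (e6.and e7)))))))
  refine ⟨c, hc0, N₀, fun N hN p hp hS hG => ?_⟩
  obtain ⟨g1, g2, g3, g4, g5, g6, g7⟩ := hN₀ N hN
  have hp0 : ∀ k, 0 ≤ p k := fun k => (hp k).1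
  set x : ℝ := (N : ℝ) with hx
  have hx0 : 0 < x := by linarith
  have hlog : 0 < Real.log x := Real.log_pos g7
  set y := Real.sqrt (x * Real.log x) with hy
  have hy0 : 0 < y := Real.sqrt_pos.mpr (by positivity)
  have hy2 : y ^ 2 = x * Real.log x := Real.sq_sqrt (by positivity)
  set S := ∑ k ∈ range (N + 1), p k with hSdef
  have hS0 : 0 ≤ S := sum_nonneg fun k _ => hp0 k
  have hSy : S ≤ y := hS.trans (by nlinarith)
  have hS2 : S ^ 2 ≤ δ * κ * η / 64 * y ^ 2 := by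
    calc S ^ 2 ≤ (c * y) ^ 2 := pow_le_pow_left₀ hS0 hS 2
      _ = c ^ 2 * y ^ 2 := by ring
      _ ≤ _ := mul_le_mul_of_nonneg_right hc2 (by positivity)
  have hD : 0 < δ * κ * η := by positivity
  have hlamsum : S ^ 2 + 2 * S ≤ δ * κ * η / 8 * y ^ 2 := by
    have h1 : 2 ≤ 7 / 64 * (δ * κ * η) * y := by
      have h2 : 7 / 64 * (δ * κ * η) * (128 / (7 * (δ * κ * η))) = 2 := by
        field_simp
        norm_num
      rw [← h2]
      exact mul_le_mul_of_nonneg_left g1 (by positivity)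
    have h3 : 2 * y ≤ 7 / 64 * (δ * κ * η) * y * y := mul_le_mul_of_nonneg_right h1 hy0.le
    nlinarith
  set Λ := δ * κ / 2 * Real.log x with hΛ
  have hΛ0 : 0 < Λ := by positivity
  have hΛx : δ * κ * η / 8 * y ^ 2 = Λ * (η * x / 4) := by
    rw [hy2, hΛ]
    ring
  set B1 := (range (N + 1)).filter (fun n => Λ < lam p n) with hB1
  set B2 := (range (N + 1)).filter (fun n : ℕ => (n : ℝ) ≤ η * x / 4) with hB2
  have hlamnn : ∀ n, 0 ≤ lam p n := by
    intro n
    unfold lam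
    exact add_nonneg (sum_nonneg fun k _ => mul_nonneg (hp0 _) (hp0 _)) (hp0 _)
  have hB1c : (B1.card : ℝ) ≤ η * x / 4 := by
    have h1 : (B1.card : ℝ) * Λ ≤ ∑ n ∈ B1, lam p n := by
      rw [← nsmul_eq_mul]
      exact card_nsmul_le_sum _ _ _ fun n hn => (mem_filter.mp hn).2.le
    have h2 : ∑ n ∈ B1, lam p n ≤ ∑ n ∈ range (N + 1), lam p n :=
      sum_le_sum_of_subset_of_nonneg (filter_subset _ _) fun n _ _ => hlamnn n
    have h3 := sum_lam p hp0 (N + 1)
    have h4 : (B1.card : ℝ) * Λ ≤ (η * x / 4) * Λ := by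
      rw [mul_comm (η * x / 4), ← hΛx]
      exact (h1.trans (h2.trans h3)).trans hlamsum
    exact le_of_mul_le_mul_right h4 hΛ0
  have hB2c : (B2.card : ℝ) ≤ η * x / 4 + 1 := by
    have h1 : B2 ⊆ range (⌊η * x / 4⌋₊ + 1) := by
      intro n hn
      rw [mem_range, Nat.lt_succ_iff]
      exact Nat.le_floor (mem_filter.mp hn).2
    have h2 : (B2.card : ℝ) ≤ ((⌊η * x / 4⌋₊ + 1 : ℕ) : ℝ) := by
      have := card_le_card h1
      rw [card_range] at this
      exact_mod_cast this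
    have h3 : (⌊η * x / 4⌋₊ : ℝ) ≤ η * x / 4 := Nat.floor_le (by positivity)
    push_cast at h2
    linarith
  set G := (range (N + 1)).filter (fun n => ∀ k ≤ n, p k ≤ 1 - δ ∨ p (n - k) ≤ 1 - δ) with hGdef
  set L := G.filter (fun n : ℕ => lam p n ≤ Λ ∧ η * x / 4 < (n : ℝ)) with hL
  have hLG : G ⊆ L ∪ (B1 ∪ B2) := by
    intro n hn
    rw [mem_union, mem_union]
    have hnr : n ∈ range (N + 1) := (mem_filter.mp hn).1
    by_cases h1 : Λ < lam p n
    · right; left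
      exact mem_filter.mpr ⟨hnr, h1⟩
    · by_cases h2 : (n : ℝ) ≤ η * x / 4
      · right; right
        exact mem_filter.mpr ⟨hnr, h2⟩
      · left
        exact mem_filter.mpr ⟨hn, not_lt.mp h1, not_le.mp h2⟩
  have hLc : η * x / 4 ≤ (L.card : ℝ) := by
    have h1 : (G.card : ℝ) ≤ L.card + (B1.card + B2.card) := by
      have := (card_le_card hLG).trans ((card_union_le _ _).trans
        (Nat.add_le_add_left (card_union_le _ _) _))
      exact_mod_cast this
    have h2 : 1 ≤ η * x / 4 := by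
      have := mul_le_mul_of_nonneg_left g2 hη.le
      have h3 : η * (4 / η) = 4 := by field_simp
      rw [h3] at this
      linarith
    linarith
  have hLr : L ⊆ range (N + 1) := (filter_subset _ _).trans (filter_subset _ _)
  set m := η / 4 * x * x ^ (-(κ / 2)) with hm
  have hxk : 0 < x ^ (-(κ / 2)) := by positivity
  have hm0 : 0 < m := by positivity
  have hmL : m ≤ ∑ n ∈ L, EB p (N + 1) (fun B => if Zr n B then 1 else 0) := by
    have h1 : ∀ n ∈ L, x ^ (-(κ / 2)) ≤ EB p (N + 1) (fun B => if Zr n B then 1 else 0) := by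
      intro n hn
      have hn1 := (mem_filter.mp hn).1
      have hn2 := (mem_filter.mp hn).2.1
      have hn3 := (mem_filter.mp hn1).1
      have hn4 := (mem_filter.mp hn1).2
      rw [mem_range] at hn3
      refine le_trans ?_ (hONE p hp δ hδ (N + 1) n hn3 hn4)
      rw [Real.rpow_def_of_pos hx0, Real.exp_le_exp]
      have h5 : lam p n / δ ≤ κ / 2 * Real.log x := by
        rw [div_le_iff₀ hδ]
        refine hn2.trans (le_of_eq ?_)
        rw [hΛ]
        ring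
      linarith
    have h2 := card_nsmul_le_sum L _ _ h1
    rw [nsmul_eq_mul] at h2
    refine le_trans ?_ h2
    rw [hm]
    refine mul_le_mul_of_nonneg_right ?_ hxk.le
    linarith
  have hche := hCHE p hp (N + 1) L hLr m hm0 hmL
  have hVb : ∑ n ∈ L, ∑ k ∈ L, cv p (N + 1) n k ≤ 5 * (x ^ (1 / 2 + κ / 4)) ^ 3 := by
    refine (sum_cv_sub p hp0 (N + 1) L hLr).trans ?_
    set s := x ^ (1 / 2 + κ / 4) with hs
    have hs1 : 1 ≤ s := Real.one_le_rpow g7.le (by positivity)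
    have hys : y ≤ s := by
      rw [hy]
      have h1 : s = Real.sqrt (x ^ (1 + κ / 2)) := by
        rw [Real.sqrt_eq_rpow, ← Real.rpow_mul hx0.le, hs]
        congr 1
        ring
      rw [h1]
      apply Real.sqrt_le_sqrt
      rw [Real.rpow_add hx0, Real.rpow_one]
      exact mul_le_mul_of_nonneg_left g3 hx0.le
    have hSs : S ≤ s := hSy.trans hys
    have h1 : S ^ 3 ≤ s ^ 3 := pow_le_pow_left₀ hS0 hSs 3
    have h2 : S ^ 2 ≤ s ^ 2 := pow_le_pow_left₀ hS0 hSs 2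
    have h3 : s ^ 2 ≤ s ^ 3 := pow_le_pow_right₀ hs1 (by norm_num)
    linarith
  refine le_trans (le_trans (EB_mono p hp (N + 1) _ _ ?_) hche)
    (final_bound g7 hη hκ hm hVb g4 g5)
  intro B
  by_cases h1 : (((range (N + 1)).filter (fun n : ℕ => η * x / 4 < (n : ℝ) ∧ Zr n B)).card : ℝ) <
      x ^ (1 - κ)
  · rw [if_pos h1, if_pos]
    have h2 : ((L.filter (fun n => Zr n B)).card : ℝ) ≤
        (((range (N + 1)).filter (fun n : ℕ => η * x / 4 < (n : ℝ) ∧ Zr n B)).card : ℝ) := by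
      have : L.filter (fun n => Zr n B) ⊆
          (range (N + 1)).filter (fun n : ℕ => η * x / 4 < (n : ℝ) ∧ Zr n B) := by
        intro n hn
        have h3 := (mem_filter.mp hn).1
        exact mem_filter.mpr ⟨hLr h3, (mem_filter.mp h3).2.2, (mem_filter.mp hn).2⟩
      exact_mod_cast card_le_card this
    have h4 : x ^ (1 - κ) ≤ m / 2 := by
      have h5 : x ^ (1 - κ) = x * x ^ (-(κ / 2)) * x ^ (-(κ / 2)) := by
        nth_rewrite 2 [← Real.rpow_one x]
        rw [← Real.rpow_add hx0, ← Real.rpow_add hx0]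
        congr 1
        ring
      have h6 : x ^ (-(κ / 2)) ≤ η / 8 := by
        rw [Real.rpow_neg hx0.le]
        have h7 : (8 / η)⁻¹ = η / 8 := by rw [inv_div]
        rw [← h7]
        exact inv_anti₀ (by positivity) g6
      rw [h5, hm]
      have h8 : x * x ^ (-(κ / 2)) * x ^ (-(κ / 2)) ≤ x * x ^ (-(κ / 2)) * (η / 8) :=
        mul_le_mul_of_nonneg_left h6 (by positivity)
      refine h8.trans (le_of_eq (by ring))
    linarith
  · rw [if_neg h1]
    split_ifs <;> norm_num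

end Pool.Agent.V5helper96.IR
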